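import Pool.Agent.W380.Fol.Main

/-!
# The Følner functions of the Grigorchuk groups `G_w` are strictly larger than exponential
-/

set_option autoImplicit false

namespace Pool.Agent.Results.MP_56119d_al.FolnerSuperexp

open scoped ENNReal

/-! ### The groups `G_w`.  The letters `0`, `1` of the binary tree are `false`, `true`. -/

/-- `a(xv) = (1-x)v` -/
def aMap : List Bool → List Bool
  | [] => []
  | x :: v => (!x) :: v

/-- `ω_0 = (a,a,1)`, `ω_1 = (a,1,a)`, `ω_2 = (1,a,a)` -/
def omega : Fin 3 → Fin 3 → (List Bool → List Bool)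
  | 0 => ![aMap, aMap, id]
  | 1 => ![aMap, id, aMap]
  | 2 => ![id, aMap, aMap]

/-- the maps `b_w`, `c_w`, `d_w`, for `j = 0, 1, 2` -/
def bcd (j : Fin 3) : List Bool → (ℕ → Fin 3) → List Bool
  | [], _ => []
  | false :: v, w => false :: omega (w 0) j v
  | true :: v, w => true :: bcd j v (fun n => w (n + 1))

theorem aMap_invol : Function.Involutive aMap := by
  rintro (_ | ⟨x, v⟩) <;> simp [aMap]

theorem omega_invol (i j : Fin 3) : Function.Involutive (omega i j) := by
  intro v
  fin_cases i <;> fin_cases j <;> first | exact aMap_invol v | rfl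

theorem bcd_invol (j : Fin 3) (w : ℕ → Fin 3) : Function.Involutive fun v => bcd j v w := by
  intro v
  induction v generalizing w with
  | nil => rfl
  | cons x v ih =>
    cases x
    · change false :: omega (w 0) j (omega (w 0) j v) = _
      rw [omega_invol]
    · change true :: bcd j (bcd j v _) _ = _
      exact congrArg _ (ih _)

/-- the generator `a`, as a permutation of the finite binary words -/
def a : Equiv.Perm (List Bool) := aMap_invol.toPerm

/-- the generators `b_w`, `c_w`, `d_w` -/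
def gen (w : ℕ → Fin 3) (j : Fin 3) : Equiv.Perm (List Bool) := (bcd_invol j w).toPerm

/-- the four generators -/
def gens (w : ℕ → Fin 3) : Set (Equiv.Perm (List Bool)) := {a, gen w 0, gen w 1, gen w 2}

/-- the group `G_w = ⟨a, b_w, c_w, d_w⟩` -/
def G (w : ℕ → Fin 3) : Subgroup (Equiv.Perm (List Bool)) := Subgroup.closure (gens w)

/-- the four generators as elements of `G_w`; all of them are involutions -/
def S (w : ℕ → Fin 3) : Set (G w) := {s | (s : Equiv.Perm (List Bool)) ∈ gens w}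

/-! ### The Følner function -/

section
variable {H : Type} [Group H]

/-- `∂F = {x ∈ F : x s ∉ F for some s ∈ S}` -/
def boundary (S F : Set H) : Set H := {x | x ∈ F ∧ ∃ s ∈ S, x * s ∉ F}

/-- the Følner function: the least `|F|` over the finite nonempty `F` with `|∂F| ≤ |F| / n` (`∞` if
there is none) -/
noncomputable def Fol (S : Set H) (n : ℕ) : ℕ∞ :=
  ⨅ (F : Set H) (_ : F.Finite ∧ F.Nonempty ∧ n * (boundary S F).ncard ≤ F.ncard), (F.ncard : ℕ∞)

end

/-- `f ⪯ e^n`: there is `C > 0` with `f(n) ≤ C e^{C n}` for all `n ≥ 1` -/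
def ExpBounded (f : ℕ → ℕ∞) : Prop :=
  ∃ C : ℝ, 0 < C ∧ ∀ n : ℕ, 1 ≤ n → (f n : ℝ≥0∞) ≤ ENNReal.ofReal (C * Real.exp (C * n))

/-! ### Comparison with the helper files -/

theorem a_eq : a = Pool.Agent.W380.Fol.a := by
  ext1 v
  rcases v with _ | ⟨x, v⟩ <;> rfl

theorem omega_eq (w : ℕ → Fin 3) (j : Fin 3) (v : List Bool) :
    omega (w 0) j v = if Fin.rev j = w 0 then v else Pool.Agent.W380.Fol.aFun v := by
  have ha : ∀ v, aMap v = Pool.Agent.W380.Fol.aFun v := by
    rintro (_ | ⟨x, v⟩) <;> rfl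
  generalize w 0 = i
  fin_cases i <;> fin_cases j <;> simp [omega, ha, Fin.rev, Fin.ext_iff]

theorem gen_eq (w : ℕ → Fin 3) (j : Fin 3) : gen w j = Pool.Agent.W380.Fol.B w (Fin.rev j) := by
  ext1 v
  change bcd j v w = Pool.Agent.W380.Fol.bFun v w (Fin.rev j)
  induction v generalizing w with
  | nil => rfl
  | cons x v ih =>
    cases x
    · change false :: omega (w 0) j v = false :: _
      rw [omega_eq]
    · change true :: _ = true :: _
      rw [ih]

theorem gens_eq (w : ℕ → Fin 3) : gens w = Pool.Agent.W380.Fol.gens w := by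
  unfold gens Pool.Agent.W380.Fol.gens
  rw [a_eq, gen_eq, gen_eq, gen_eq]
  ext x
  simp only [Set.mem_insert_iff, Set.mem_singleton_iff, Set.mem_ofPred_eq]
  constructor
  · rintro (h | h | h | h)
    · exact Or.inl h
    · exact Or.inr ⟨_, h⟩
    · exact Or.inr ⟨_, h⟩
    · exact Or.inr ⟨_, h⟩
  · rintro (h | ⟨y, h⟩)
    · exact Or.inl h
    · fin_cases y
      · exact Or.inr (Or.inr (Or.inr h))
      · exact Or.inr (Or.inr (Or.inl h))
      · exact Or.inr (Or.inl h)

/-- For every `w` that is not eventually constant and every real `C` there is `n ≥ 1` such that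
every finite nonempty `F ⊆ G_w` with `|∂F| ≤ |F| / n` has more than `C e^{C n}` elements. -/
theorem lower (w : ℕ → Fin 3) (hw : ¬ ∃ (i : Fin 3) (N : ℕ), ∀ n ≥ N, w n = i) (C : ℝ) :
    ∃ n : ℕ, 1 ≤ n ∧ ∀ F : Set (G w), F.Finite → F.Nonempty →
      n * (boundary (S w) F).ncard ≤ F.ncard → C * Real.exp (C * n) < F.ncard := by
  classical
  obtain ⟨n, hn, h⟩ := Pool.Agent.W380.Fol.main_P w hw C
  refine ⟨n, hn, fun F hF hne hb => ?_⟩
  set F' : Finset (Equiv.Perm (List Bool)) := hF.toFinset.image Subtype.val with hF'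
  have hinj : Function.Injective (Subtype.val : G w → Equiv.Perm (List Bool)) :=
    Subtype.val_injective
  have hmem : ∀ x : G w, (x : Equiv.Perm (List Bool)) ∈ F' ↔ x ∈ F := by
    intro x
    rw [hF', Finset.mem_image]
    constructor
    · rintro ⟨y, hy, hxy⟩
      rw [← hinj hxy]
      exact hF.mem_toFinset.1 hy
    · intro hx
      exact ⟨x, hF.mem_toFinset.2 hx, rfl⟩
  have hcard : F'.card = F.ncard := by
    rw [hF', Finset.card_image_of_injective _ hinj, ← Set.ncard_eq_toFinset_card F hF]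
  have hbd : (F'.filter fun z => ∃ s ∈ Pool.Agent.W380.Fol.gens w, z * s ∉ F').card =
      (boundary (S w) F).ncard := by
    have hfin : (boundary (S w) F).Finite := hF.subset fun x hx => hx.1
    rw [Set.ncard_eq_toFinset_card _ hfin, ← Finset.card_image_of_injective _ hinj]
    congr 1
    ext z
    rw [Finset.mem_filter]
    constructor
    · rintro ⟨hz, s, hs, hzs⟩
      obtain ⟨x, hx, rfl⟩ := Finset.mem_image.1 hz
      rw [← gens_eq] at hs
      have hsG : s ∈ G w := Subgroup.subset_closure hs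
      refine Finset.mem_image.2
        ⟨x, hfin.mem_toFinset.2 ⟨hF.mem_toFinset.1 hx, ⟨s, hsG⟩, hs, fun hc => hzs ?_⟩, rfl⟩
      exact (hmem (x * ⟨s, hsG⟩)).2 hc
    · intro hz
      obtain ⟨x, hx, rfl⟩ := Finset.mem_image.1 hz
      obtain ⟨hxF, s, hs, hxs⟩ := hfin.mem_toFinset.1 hx
      refine ⟨(hmem x).2 hxF, (s : Equiv.Perm (List Bool)), ?_, fun hc => hxs ?_⟩
      · rw [← gens_eq]
        exact hs
      · exact (hmem (x * s)).1 hc
  have h1 := h F' (by
    obtain ⟨x, hx⟩ := hne
    exact ⟨x, (hmem x).2 hx⟩) (by rw [hbd, hcard]; exact hb)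
  rwa [hcard] at h1

/-- **Theorem.** For every `w : ℕ → {0,1,2}` that is not eventually constant, the Følner function
of the Grigorchuk group `G_w` is strictly larger than exponential: `Fol_{G_w} ⪯ e^n` fails. -/
theorem result (w : ℕ → Fin 3) (hw : ¬ ∃ (i : Fin 3) (N : ℕ), ∀ n ≥ N, w n = i) :
    ¬ ExpBounded (Fol (S w)) := by
  rintro ⟨C, hC, h⟩
  obtain ⟨n, hn, hlow⟩ := lower w hw C
  have h1 := h n hn
  have hpos : 0 < C * Real.exp (C * n) := by positivity
  -- some admissible set is small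
  have h2 : Fol (S w) n ≠ ⊤ := by
    intro htop
    rw [htop] at h1
    simp at h1
  obtain ⟨F, hF⟩ : ∃ F : Set (G w), ∃ _ : F.Finite ∧ F.Nonempty ∧
      n * (boundary (S w) F).ncard ≤ F.ncard, Fol (S w) n = F.ncard := by
    by_contra hcon
    push Not at hcon
    have hne : {m : ℕ | ∃ F : Set (G w), (F.Finite ∧ F.Nonempty ∧
        n * (boundary (S w) F).ncard ≤ F.ncard) ∧ F.ncard = m}.Nonempty := by
      by_contra hemp
      rw [Set.not_nonempty_iff_eq_empty] at hemp
      refine h2 ?_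
      unfold Fol
      simp only [iInf_eq_top]
      intro F hF
      exact absurd (show F.ncard ∈ {m : ℕ | ∃ F : Set (G w), (F.Finite ∧ F.Nonempty ∧
        n * (boundary (S w) F).ncard ≤ F.ncard) ∧ F.ncard = m} from ⟨F, hF, rfl⟩)
        (by rw [hemp]; exact Set.notMem_empty _)
    obtain ⟨F, hF, hFm⟩ := Nat.sInf_mem hne
    refine hcon F hF (le_antisymm (iInf₂_le F hF) ?_)
    refine le_iInf₂ fun F' hF' => ?_
    rw [hFm]
    exact_mod_cast Nat.sInf_le (s := {m : ℕ | ∃ F : Set (G w), (F.Finite ∧ F.Nonempty ∧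
        n * (boundary (S w) F).ncard ≤ F.ncard) ∧ F.ncard = m}) ⟨F', hF', rfl⟩
  obtain ⟨hFp, hFe⟩ := hF
  rw [hFe] at h1
  have h3 := hlow F hFp.1 hFp.2.1 hFp.2.2
  have h4 : ((F.ncard : ℕ) : ℝ≥0∞) ≤ ENNReal.ofReal (C * Real.exp (C * n)) := by
    simpa using h1
  have h5 : (F.ncard : ℝ) ≤ C * Real.exp (C * n) := by
    rw [← ENNReal.ofReal_natCast] at h4
    exact (ENNReal.ofReal_le_ofReal_iff hpos.le).1 h4
  linarith

end Pool.Agent.Results.MP_56119d_al.FolnerSuperexp
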